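import Pool.Agent.H846V.Half

set_option autoImplicit false

/-!
# The question for large dimensions, and the growth of `n(r)`

For each `ε > 0` and all large `n`, `f_n : VR(Q_n; r) → [0,1]^n` is surjective for all
`r ≥ (1/2 + ε) n`.  For `r ≤ n / 2` the center of the cube is not in the image.  So the assertion of the
question holds for all `(n, r)` with `n` large, except possibly for `n / 2 < r < (1/2 + ε) n`, and
`n(r) / r` tends to `2`, where `n(r)` is the least `n` for which `f_n` is not surjective.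

Outline of the proof.  Let `M` be large, `x` a point of the cube, `y_i = M x_i`, `k_i = ⌊y_i⌋`.  Choose a
permutation `π_i` of `{0, ..., M - 1}` for each coordinate `i` such that among the coordinates with
`k_i = k` all permutations are used almost equally often, for each `k`.  For `ω < M` let `q^ω` be the
point with the coordinates `|[0, y_i] ∩ [π_i(ω), π_i(ω) + 1]|`, and `w^ω` weights on the vertices with
mean `q^ω`.  The mean of the `q^ω` is `x`.  If a vertex of the support of `w^ω` and one of `w^ω'` differ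
in the coordinate `i`, then `π_i(ω)` or `π_i(ω')` is `k_i`, or exactly one of them is less than `k_i`.
Counted over all permutations this occurs with probability at most `M / (2 (M - 1)) + 2 / M`.
-/

namespace Pool.Agent.Results.MP_678251_co.AboveOneHalf

open Pool.Agent.H846V

/-- `n(r)`: the least `n` for which `f_n` is not surjective. -/
noncomputable def nr (r : ℝ) : ℕ := sInf {n : ℕ | ¬ Surj n r}

lemma not_center_half {n : ℕ} {r : ℝ} (hn : 1 ≤ n) (h0 : 0 ≤ r) (hr : 2 * r ≤ n) :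
    ¬ Center n r := by
  rintro ⟨w, ⟨h1, h2, h3⟩, h4⟩
  have hc : Center n (⌊r⌋₊ : ℝ) := by
    refine ⟨w, ⟨h1, h2, fun a b ha hb => ?_⟩, h4⟩
    have := Nat.le_floor (h3 a b ha hb)
    exact_mod_cast this
  have h5 := center_bound hn hc
  have h6 := Nat.floor_le h0
  have h7 : ((n + 1 : ℕ) : ℝ) ≤ ((2 * ⌊r⌋₊ : ℕ) : ℝ) := by exact_mod_cast h5
  push_cast at h7
  linarith

lemma center_of_surj {n : ℕ} {r : ℝ} (h : Surj n r) : Center n r :=
  h (fun _ => 1 / 2) fun _ => ⟨by norm_num, by norm_num⟩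

lemma nr_bounds {ε : ℝ} (hε : 0 < ε) :
    ∃ r₀ : ℝ, ∀ r : ℝ, r₀ ≤ r → (2 - ε) * r < nr r ∧ (nr r : ℝ) ≤ 2 * r := by
  obtain ⟨n₀, hn₀⟩ := surj_half (ε := ε / 4) (by linarith)
  refine ⟨n₀ + 1, fun r hr => ?_⟩
  have hn0 : (0 : ℝ) ≤ n₀ := Nat.cast_nonneg _
  have h0 : 0 ≤ r := by linarith
  have hR : 1 ≤ ⌊r⌋₊ := Nat.le_floor (by push_cast; linarith)
  have hfl := Nat.floor_le h0
  have hmem : 2 * ⌊r⌋₊ ∈ {n : ℕ | ¬ Surj n r} := by
    intro hs
    have hc := center_of_surj hs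
    refine absurd hc ?_
    rintro ⟨w, ⟨h1, h2, h3⟩, h4⟩
    have hc' : Center (2 * ⌊r⌋₊) (⌊r⌋₊ : ℝ) := by
      refine ⟨w, ⟨h1, h2, fun a b ha hb => ?_⟩, h4⟩
      have := Nat.le_floor (h3 a b ha hb)
      exact_mod_cast this
    have := center_bound (by omega) hc'
    omega
  have hle : nr r ≤ 2 * ⌊r⌋₊ := Nat.sInf_le hmem
  constructor
  · have hN : ¬ Surj (nr r) r := Nat.sInf_mem ⟨_, hmem⟩
    by_contra hcon
    push Not at hcon
    apply hN
    by_cases h : n₀ ≤ nr r
    · refine hn₀ _ h r ?_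
      have h5 : (1 / 2 + ε / 4) * (nr r : ℝ) ≤ (1 / 2 + ε / 4) * ((2 - ε) * r) :=
        mul_le_mul_of_nonneg_left hcon (by linarith)
      have h6 : 0 ≤ ε ^ 2 / 4 * r := by positivity
      nlinarith
    · have h7 : ((nr r : ℕ) : ℝ) ≤ r := by
        have : (nr r : ℝ) ≤ n₀ := by
          have : nr r ≤ n₀ := by omega
          exact_mod_cast this
        linarith
      exact surj_mono h7 (surj_large (by omega))
  · have : (nr r : ℝ) ≤ 2 * ⌊r⌋₊ := by exact_mod_cast hle
    linarith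

/-- (1) For each `ε > 0` there is `n₀` such that for all `n ≥ n₀` and all `r ≥ (1/2 + ε) n` the map `f_n`
is surjective. (2) If `n ≥ 1` and `0 ≤ r ≤ n / 2`, then the center is not in the image of `f_n`. (3) Hence
for each `ε > 0` there is `n₀` such that for all `n ≥ n₀` and all `r ≥ 0` with `r ≤ n / 2` or
`r ≥ (1/2 + ε) n` the assertion of the question holds. (4) `n(r) / r → 2`. -/
theorem result :
    (∀ ε : ℝ, 0 < ε → ∃ n₀ : ℕ, ∀ n : ℕ, n₀ ≤ n → ∀ r : ℝ, (1 / 2 + ε) * n ≤ r → Surj n r) ∧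
    (∀ (n : ℕ) (r : ℝ), 1 ≤ n → 0 ≤ r → 2 * r ≤ n → ¬ Center n r) ∧
    (∀ ε : ℝ, 0 < ε → ∃ n₀ : ℕ, ∀ n : ℕ, n₀ ≤ n → ∀ r : ℝ, 0 ≤ r →
      (2 * r ≤ n ∨ (1 / 2 + ε) * n ≤ r) → Center n r → Surj n r) ∧
    Filter.Tendsto (fun r : ℝ => (nr r : ℝ) / r) Filter.atTop (nhds 2) := by
  refine ⟨fun ε hε => surj_half hε, fun n r hn h0 hr => not_center_half hn h0 hr, ?_, ?_⟩
  · intro ε hε
    obtain ⟨n₀, hn₀⟩ := surj_half hε
    refine ⟨n₀ + 1, fun n hn r h0 h hc => ?_⟩
    rcases h with h | h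
    · exact absurd hc (not_center_half (by omega) h0 h)
    · exact hn₀ n (by omega) r h
  · rw [Metric.tendsto_atTop]
    intro ε hε
    obtain ⟨r₀, hr₀⟩ := nr_bounds hε
    refine ⟨max r₀ 1, fun r hr => ?_⟩
    have h1 : r₀ ≤ r := (le_max_left _ _).trans hr
    have h2 : (1 : ℝ) ≤ r := (le_max_right _ _).trans hr
    obtain ⟨h3, h4⟩ := hr₀ r h1
    have hr0 : (0 : ℝ) < r := by linarith
    rw [Real.dist_eq, abs_lt]
    constructor
    · have : 2 - ε < (nr r : ℝ) / r := by
        rw [lt_div_iff₀ hr0]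
        exact h3
      linarith
    · have : (nr r : ℝ) / r ≤ 2 := by
        rw [div_le_iff₀ hr0]
        exact h4
      linarith

end Pool.Agent.Results.MP_678251_co.AboveOneHalf
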