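import Pool.Agent.H846V.Hadamard

set_option autoImplicit false

/-!
# The critical dimension `2 R - 1` and Hadamard matrices

Let `R = ⌊r⌋ ≥ 1`.  The center of the cube `[0,1]^(2R-1)` is in the image of
`f : VR(Q_(2R-1); r) → [0,1]^(2R-1)` if and only if there is a Hadamard matrix of order `2 R`.  The
least `n` for which `f_n` is not surjective is at most `2 R`, and it is `2 R` only if there is a
Hadamard matrix of order `2 R`.

Outline of the proof.  Let the center be the mean of affinely independent vertices, at most `n + 1`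
of them, `n = 2 R - 1`, with weights `w > 0`.  The mean distance of two independent vertices is `n / 2`,
and it is at most `R (1 - ∑ w^2)`.  So `∑ w^2 ≤ 1 / (2 R)`, and there are exactly `2 R` vertices, with
equal weights and with all distances equal to `R`: the rows of a Hadamard matrix with first column `1`.
-/

namespace Pool.Agent.Results.MP_678251_co.HadamardScale

open Pool.Agent.H846V

/-- `n(r)`: the least `n` for which `f_n` is not surjective. -/
noncomputable def nr (r : ℝ) : ℕ := sInf {n : ℕ | ¬ Surj n r}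

lemma center_floor {n : ℕ} {r : ℝ} (hr : 0 ≤ r) : Center n r ↔ Center n (⌊r⌋₊ : ℝ) := by
  constructor
  · rintro ⟨w, ⟨h0, h1, h2⟩, h3⟩
    refine ⟨w, ⟨h0, h1, fun a b ha hb => ?_⟩, h3⟩
    have := Nat.le_floor (h2 a b ha hb)
    exact_mod_cast this
  · rintro ⟨w, ⟨h0, h1, h2⟩, h3⟩
    exact ⟨w, ⟨h0, h1, fun a b ha hb => (h2 a b ha hb).trans (Nat.floor_le hr)⟩, h3⟩

lemma center_of_surj {n : ℕ} {r : ℝ} (h : Surj n r) : Center n r :=
  h (fun _ => 1 / 2) fun _ => ⟨by norm_num, by norm_num⟩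

/-- For `r ≥ 1` and `R = ⌊r⌋`: the center is in the image of `f_n`, `n = 2 R - 1`, iff there is a
Hadamard matrix of order `2 R`; `n(r) ≤ 2 R`; and `n(r) = 2 R` implies that there is a Hadamard matrix
of order `2 R`. -/
theorem result (r : ℝ) (hr : 1 ≤ r) :
    (Center (2 * ⌊r⌋₊ - 1) r ↔ HasHadamard (2 * ⌊r⌋₊)) ∧
    ¬ Surj (2 * ⌊r⌋₊) r ∧ nr r ≤ 2 * ⌊r⌋₊ ∧
    (nr r = 2 * ⌊r⌋₊ → HasHadamard (2 * ⌊r⌋₊)) := by
  have hR : 1 ≤ ⌊r⌋₊ := Nat.le_floor (by simpa using hr)
  have h0 : (0 : ℝ) ≤ r := by linarith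
  have h1 : Center (2 * ⌊r⌋₊ - 1) r ↔ HasHadamard (2 * ⌊r⌋₊) := by
    rw [center_floor h0]
    have h2 : 2 * ⌊r⌋₊ - 1 + 1 = 2 * ⌊r⌋₊ := by omega
    constructor
    · intro h
      have := hadamard_of_center h2 h
      rwa [h2] at this
    · intro h
      rw [← h2] at h
      exact center_of_hadamard h2 h
  have h3 : ¬ Surj (2 * ⌊r⌋₊) r := by
    intro h
    have h4 := (center_floor h0).1 (center_of_surj h)
    have := center_bound (by omega) h4
    omega
  have h4 : nr r ≤ 2 * ⌊r⌋₊ := Nat.sInf_le h3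
  refine ⟨h1, h3, h4, fun h => ?_⟩
  rw [← h1]
  by_contra hc
  have h5 : 2 * ⌊r⌋₊ - 1 ∈ {n : ℕ | ¬ Surj n r} := fun hs => hc (center_of_surj hs)
  have h6 : nr r ≤ 2 * ⌊r⌋₊ - 1 := Nat.sInf_le h5
  omega

end Pool.Agent.Results.MP_678251_co.HadamardScale
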