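import Pool.Agent.H846V.Large

set_option autoImplicit false

/-!
# The image of the Vietoris-Rips complex of the vertices in the cube, for most scales

`f_n : VR(Q_n; r) → [0,1]^n` is surjective if `2 n ≤ 3 ⌊r⌋`, and the center of the cube is not in its
image if `n ≥ 2 ⌊r⌋`, or if `⌊r⌋ ≥ 3` is odd and `n ≥ 2 ⌊r⌋ - 1`.  So the assertion of the question holds
for all these pairs `(n, r)`, in particular for `n ≤ 6` and for `n = 9` and all `r`.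

Outline of the proof.  If `f_n` is surjective at `r` and `f_m` at `s`, then `f_(n+m)` is surjective at
`r + s`: take products.  So surjectivity follows from `(n, r) = (1, 1)` and `(3, 2)`.  If the center is
the mean of the vertices for weights `w`, then the mean of the distance of two independent vertices is
`n / 2`.  It is at most `R (1 - ∑ w^2)`, `R = ⌊r⌋`, since a vertex has distance `0` to itself.  If `R`
is odd, then vertices with an even distance have distance at most `R - 1`, and the probability of an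
odd distance is at most `1 / 2`.
-/

namespace Pool.Agent.Results.MP_678251_co.ScaleRange

open Pool.Agent.H846V

lemma center_floor {n : ℕ} {r : ℝ} (h : Center n r) : Center n (⌊r⌋₊ : ℝ) := by
  obtain ⟨w, ⟨h0, h1, h2⟩, h3⟩ := h
  refine ⟨w, ⟨h0, h1, fun a b ha hb => ?_⟩, h3⟩
  have := Nat.le_floor (h2 a b ha hb)
  exact_mod_cast this

lemma surj_floor {n : ℕ} {r : ℝ} (hr : 0 ≤ r) (h : 2 * n ≤ 3 * ⌊r⌋₊) : Surj n r :=
  surj_mono (Nat.floor_le hr) (surj_large h)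

lemma not_center {n : ℕ} {r : ℝ} (hn : 1 ≤ n)
    (h : 2 * ⌊r⌋₊ ≤ n ∨ (3 ≤ ⌊r⌋₊ ∧ Odd ⌊r⌋₊ ∧ 2 * ⌊r⌋₊ ≤ n + 1)) : ¬ Center n r := by
  intro hc
  have hc' := center_floor hc
  rcases h with h | ⟨h3, hodd, h⟩
  · have := center_bound hn hc'
    omega
  · have := center_odd h3 hodd hc'
    omega

/-- (1) `f_n` is surjective if `2 n ≤ 3 ⌊r⌋`. (2) The center is not in the image of `f_n` if
`n ≥ 2 ⌊r⌋`, or if `⌊r⌋ ≥ 3` is odd and `n ≥ 2 ⌊r⌋ - 1`. (3) Hence the assertion of the question holds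
for these pairs, and (4) for `n ≤ 6` and `n = 9` and all `r`. -/
theorem result :
    (∀ (n : ℕ) (r : ℝ), 1 ≤ n → 0 ≤ r → 2 * n ≤ 3 * ⌊r⌋₊ → Surj n r) ∧
    (∀ (n : ℕ) (r : ℝ), 1 ≤ n → 0 ≤ r →
      (2 * ⌊r⌋₊ ≤ n ∨ (3 ≤ ⌊r⌋₊ ∧ Odd ⌊r⌋₊ ∧ 2 * ⌊r⌋₊ ≤ n + 1)) → ¬ Center n r) ∧
    (∀ (n : ℕ) (r : ℝ), 1 ≤ n → 0 ≤ r →
      (2 * n ≤ 3 * ⌊r⌋₊ ∨ 2 * ⌊r⌋₊ ≤ n ∨ (Odd ⌊r⌋₊ ∧ 2 * ⌊r⌋₊ ≤ n + 1)) →
        Center n r → Surj n r) ∧
    (∀ (n : ℕ) (r : ℝ), 1 ≤ n → (n ≤ 6 ∨ n = 9) → 0 ≤ r → Center n r → Surj n r) := by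
  have h3 : ∀ (n : ℕ) (r : ℝ), 1 ≤ n → 0 ≤ r →
      (2 * n ≤ 3 * ⌊r⌋₊ ∨ 2 * ⌊r⌋₊ ≤ n ∨ (Odd ⌊r⌋₊ ∧ 2 * ⌊r⌋₊ ≤ n + 1)) →
        Center n r → Surj n r := by
    intro n r hn hr h hc
    by_cases h2 : 2 * n ≤ 3 * ⌊r⌋₊
    · exact surj_floor hr h2
    · refine absurd hc (not_center hn ?_)
      rcases h with h | h | ⟨hodd, h⟩
      · exact absurd h h2
      · exact Or.inl h
      · by_cases h4 : 3 ≤ ⌊r⌋₊
        · exact Or.inr ⟨h4, hodd, h⟩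
        · left
          obtain ⟨k, hk⟩ := hodd
          omega
  refine ⟨fun n r _ hr h => surj_floor hr h, fun n r hn _ h => not_center hn h, h3, ?_⟩
  intro n r hn h hr hc
  refine h3 n r hn hr ?_ hc
  by_cases h1 : 2 * n ≤ 3 * ⌊r⌋₊
  · exact Or.inl h1
  by_cases h2 : 2 * ⌊r⌋₊ ≤ n
  · exact Or.inr (Or.inl h2)
  · right
    right
    have h5 : (n = 5 ∧ ⌊r⌋₊ = 3) ∨ (n = 9 ∧ ⌊r⌋₊ = 5) ∨ (n = 1 ∧ ⌊r⌋₊ = 1) := by omega
    rcases h5 with ⟨h6, h7⟩ | ⟨h6, h7⟩ | ⟨h6, h7⟩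
    · rw [h6, h7]
      exact ⟨by decide, by norm_num⟩
    · rw [h6, h7]
      exact ⟨by decide, by norm_num⟩
    · rw [h6, h7]
      exact ⟨by decide, by norm_num⟩

end Pool.Agent.Results.MP_678251_co.ScaleRange
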